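import Pool.Agent.GEN.StmtsV

/-!
# Squad GEN, block V, row ROV (helper7): the root side over the field of coefficients

Variant of `Helper6_GEN/ROO.lean`.
-/

set_option autoImplicit false

namespace Pool.Agent.GEN.H7

open MvPolynomial Finset Pool.Agent.GEN Pool.Agent.Helper6_Mono Pool.Agent.Helper30_Simp
  Pool.Agent.Helper30_Simp2

open scoped Classical in
/-- **Row ROV** -/
theorem rov (hSTR : StrStmtA) (hCOV : CovStmt) (hSBV : SbvStmt) (hGWB : GwbStmt) : RovStmt := by
  intro σ _ M κ N B hN hge hBsub hBne hBeq hindep hflat hUB s₀ hs₀ a P Q hrel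
  by_contra ha
  obtain ⟨f, hf, hall⟩ := hSBV σ M s₀ a P Q ha hrel
  clear hrel
  subst hf
  have hs₀C : ((s₀ : ℚ) : ℂ) = -(((∑ i, κ i : ℕ) : ℂ) / (N : ℕ)) := by
    rw [hs₀]
    push_cast
    rfl
  -- the weights are not all zero
  have hsum : ∑ i, κ i ≠ 0 := by
    intro h0
    have h1 : ∀ i, κ i = 0 := by
      intro i
      exact (Finset.sum_eq_zero_iff.1 h0) i (Finset.mem_univ i)
    obtain ⟨α, hα⟩ := hBne
    have h2 := hBeq α hα
    unfold dot at h2
    rw [Finset.sum_eq_zero fun j _ => by rw [h1 j, zero_mul]] at h2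
    omega
  obtain ⟨ω, K₀, hK⟩ := hGWB σ f κ N B hN hge hBsub hBne hBeq hindep hflat hUB
  obtain ⟨d, be, hbe, e, he, hne⟩ := hall ω
  obtain ⟨K, hKdef⟩ : ∃ K, K = K₀ + (f.support.card + 1) * d + 1 := ⟨_, rfl⟩
  have hKge : K ≥ K₀ := by
    rw [hKdef]
    omega
  have hKpos : 0 < K := by
    rw [hKdef]
    omega
  obtain ⟨a1, a2, a3, a4, a5, a6⟩ := hK K hKge
  obtain ⟨q, κ', D, hq, hDN, hin, hz, hface, hs⟩ := hSTR (Option σ) (liftF ω f).support (actv σ)
    (wOpt (fun i => K * κ i) 1) (K * N) (Nat.mul_pos hKpos hN) a1 a2 a3 a4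
  have hnone : κ' none = q := by
    have h1 := hin none (fun h => h rfl)
    rw [h1]
    exact Nat.mul_one q
  have hzero : ∀ i, κ i = 0 → κ' (some i) = 0 := by
    intro i hi
    apply hz (some i)
    show K * κ i = 0
    rw [hi, mul_zero]
  have hsome : ∑ i, κ' (some i) = q * (K * ∑ i, κ i) := by
    rw [Fintype.sum_option, Fintype.sum_option, hnone] at hs
    have h2 : (wOpt (fun i => K * κ i) 1 : Option σ → ℕ) none = 1 := rfl
    have h3 : ∑ i : σ, (wOpt (fun i => K * κ i) 1 : Option σ → ℕ) (some i) =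
        K * ∑ i, κ i := by
      rw [Finset.mul_sum]
      rfl
    rw [h2, h3, mul_add, mul_one] at hs
    omega
  have hge' : ∀ α ∈ (liftF ω f).support, q * (K * N) ≤ dot κ' α := by
    intro α hα
    rw [← hDN]
    exact D.ge α hα
  have hface' : ∀ α ∈ face (liftF ω f).support κ', dot κ' α = q * (K * N) := by
    intro α hα
    refine le_antisymm ?_ (hge' α hα.1)
    obtain ⟨α₀, h1, h2⟩ := D.ex
    rw [← hDN, ← h2]
    exact hα.2 α₀ h1
  obtain ⟨hSimp, hSumA⟩ := a6 q κ' hq hnone hzero hsome hge' hface hface'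
  rw [← hDN] at hSimp hSumA
  have hex : ∃ j, j ≠ none ∧ κ' j ≠ 0 := by
    by_contra hcon
    push Not at hcon
    have h1 : ∑ i, κ' (some i) = 0 :=
      Finset.sum_eq_zero fun i _ => hcon (some i) (by simp)
    rw [hsome] at h1
    have h2 : 0 < ∑ i, κ i := Nat.pos_of_ne_zero hsum
    have h3 : 0 < q * (K * ∑ i, κ i) := Nat.mul_pos hq (Nat.mul_pos hKpos h2)
    omega
  have hineq : ((liftF ω f).support.card + 1) * d * κ' none < D.N := by
    rw [a5, hnone, hDN, mul_comm]
    refine Nat.mul_lt_mul_of_pos_left ?_ hq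
    calc (f.support.card + 1) * d < K := by rw [hKdef]; omega
      _ ≤ K * N := Nat.le_mul_of_pos_right K hN
  have hval : ((s₀ : ℚ) : ℂ) =
      -((∑ i ∈ (univ : Finset (Option σ)).erase none, (κ' i : ℂ)) / (D.N : ℕ)) := by
    have h1 : ∑ i ∈ (univ : Finset (Option σ)).erase none, (κ' i : ℂ) =
        ((q * (K * ∑ i, κ i) : ℕ) : ℂ) := by
      have h2 := Finset.add_sum_erase (univ : Finset (Option σ)) (fun i => (κ' i : ℂ))
        (Finset.mem_univ none)
      rw [Fintype.sum_option] at h2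
      have h3 := add_left_cancel h2
      rw [h3, ← hsome, Nat.cast_sum]
    have hqC : (q : ℂ) ≠ 0 := by exact_mod_cast hq.ne'
    have hKC : (K : ℂ) ≠ 0 := by exact_mod_cast hKpos.ne'
    have hNC : (N : ℂ) ≠ 0 := by exact_mod_cast hN.ne'
    rw [hs₀C, h1, hDN]
    congr 1
    rw [Nat.cast_mul, Nat.cast_mul, Nat.cast_mul, Nat.cast_mul,
      mul_div_mul_left _ _ hqC, mul_div_mul_left _ _ hKC]
  rw [hval] at hbe
  exact hne (hCOV (Option σ) (liftF ω f) none κ' D (by rw [hnone]; exact hq.ne') hex hSimp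
    hSumA d be hineq hbe e he)

end Pool.Agent.GEN.H7
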