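import Pool.Agent.GEN.StmtsPT

/-!
Squad GEN, block PT, row HMX (the prism identity for alternating sums over lists).
-/

set_option autoImplicit false

namespace Pool.Agent.GEN.H7

open Finset Pool.Agent.Helper6_Mono Pool.Agent.Helper30_Simp Pool.Agent.Helper30_Simp2
  Pool.Agent.GEN Pool.Agent.GEN.PT
open scoped Classical

section hmx_aux

variable {E V : Type} [AddCommGroup V]

theorem hm_nil_aux (g h : E → E) (x : List E → V) : hm g h x [] = 0 := by
  simp [hm]

theorem hm_cons_aux (g h : E → E) (x : List E → V) (a : E) (l : List E) :
    hm g h x (a :: l) = x (g a :: h a :: l.map h) - hm g h (fun l' => x (g a :: l')) l := by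
  unfold hm
  rw [List.length_cons, Finset.sum_range_succ']
  have h1 : ∀ i ∈ range l.length, (-1 : ℤ) ^ (i + 1) •
      x (((a :: l).take (i + 1 + 1)).map g ++ ((a :: l).drop (i + 1)).map h) =
      - ((-1 : ℤ) ^ i • x (g a :: ((l.take (i + 1)).map g ++ (l.drop i).map h))) := by
    intro i _
    rw [List.take_succ_cons, List.drop_succ_cons, List.map_cons, List.cons_append, pow_succ]
    rw [mul_neg_one, neg_smul]
  rw [Finset.sum_congr rfl h1, Finset.sum_neg_distrib]
  simp only [zero_add, pow_zero, one_smul, List.take_succ_cons, List.take_zero, List.map_cons,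
    List.map_nil, List.drop_zero, List.cons_append, List.nil_append]
  abel

theorem hm_sub_aux (g h : E → E) (x y : List E → V) (l : List E) :
    hm g h (fun l' => x l' - y l') l = hm g h x l - hm g h y l := by
  unfold hm
  rw [← Finset.sum_sub_distrib]
  exact Finset.sum_congr rfl fun i _ => smul_sub _ _ _

theorem dl_sub_aux (x y : List E → V) (l : List E) :
    dl (fun l' => x l' - y l') l = dl x l - dl y l := by
  unfold dl
  rw [← Finset.sum_sub_distrib]
  exact Finset.sum_congr rfl fun i _ => smul_sub _ _ _

end hmx_aux

/-- **Row HMX** -/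
theorem hmx (h1 : DlxStmt) : HmxStmt := by
  intro E V _ g h
  obtain ⟨d0, d1, _, d3, _⟩ := h1 E V
  refine ⟨fun x => hm_nil_aux g h x, fun x a l => hm_cons_aux g h x a l, ?_, ?_⟩
  · intro x l
    induction l generalizing x with
    | nil =>
      rw [d0, hm_nil_aux]
      simp
    | cons a l ih =>
      have e1 : hm g h (dl x) (a :: l) =
          (x (h a :: l.map h) - (x (g a :: l.map h) -
            dl (fun l' => x (g a :: h a :: l')) (l.map h))) -
          (hm g h x l - hm g h (dl (fun l' => x (g a :: l'))) l) := by
        rw [hm_cons_aux, d1 x (g a), d1 (fun l' => x (g a :: l')) (h a)]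
        have : (fun l' => dl x (g a :: l')) = fun l' => x l' - dl (fun l'' => x (g a :: l'')) l' :=
          funext fun l' => d1 x (g a) l'
        rw [this, hm_sub_aux]
      have e2 : dl (hm g h x) (a :: l) =
          hm g h x l - (dl (fun l' => x (g a :: h a :: l')) (l.map h) -
            dl (hm g h (fun l' => x (g a :: l'))) l) := by
        rw [d1 (hm g h x) a l]
        have : (fun l' => hm g h x (a :: l')) =
            fun l' => x (g a :: h a :: l'.map h) - hm g h (fun l'' => x (g a :: l'')) l' :=
          funext fun l' => hm_cons_aux g h x a l'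
        rw [this, dl_sub_aux, d3 h (fun l' => x (g a :: h a :: l')) l]
      have e3 := ih (fun l' => x (g a :: l'))
      rw [e1, e2, List.map_cons, List.map_cons]
      have e4 : hm g h (dl (fun l' => x (g a :: l'))) l =
          x (g a :: l.map h) - x (g a :: l.map g) - dl (hm g h (fun l' => x (g a :: l'))) l := by
        rw [← e3]; abel
      rw [e4]
      abel
  · intro V' _ φ x l
    unfold hm
    rw [map_sum]
    exact Finset.sum_congr rfl fun i _ => map_zsmul φ _ _

end Pool.Agent.GEN.H7
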