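import Pool.Agent.GEN.StmtsPT

/-!
Squad GEN, block PT, row PAT (the patching theorem).
-/

set_option autoImplicit false

namespace Pool.Agent.GEN.H7

open Finset Pool.Agent.Helper6_Mono Pool.Agent.Helper30_Simp Pool.Agent.Helper30_Simp2
  Pool.Agent.GEN Pool.Agent.GEN.PT
open scoped Classical

/-- **Row PAT** -/
theorem pat (h1 : PipStmt) (h2 : RowStmt) (h3 : KotStmt) (h4 : DbcStmt) : PatStmt := by
  intro Λ D A _ _ _ F W f P hC hR hP
  obtain ⟨ν, hν⟩ : ∃ ν : D → ℕ, Function.Injective ν :=
    ⟨fun d => (Fintype.equivFin D d : ℕ), fun a b hab =>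
      (Fintype.equivFin D).injective (Fin.ext hab)⟩
  have hres := (h1 Λ A F).1
  have hl1 : ∀ e : Finset Λ × Finset D, lastT [e] = e.1 := fun e => rfl
  have hq1 : ∀ e : Finset Λ × Finset D, lastQ [e] = e.2 := fun e => rfl
  have hl2 : ∀ e e' : Finset Λ × Finset D, lastT [e, e'] = e'.1 := fun e e' => rfl
  have hd1 : ∀ (x : List (Finset Λ × Finset D) → MvPolynomial Λ A) e, dl x [e] = x [] := by
    intro x e
    simp [dl]
  have hd2 : ∀ (x : List (Finset Λ × Finset D) → MvPolynomial Λ A) e e',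
      dl x [e, e'] = x [e'] - x [e] := by
    intro x e e'
    simp [dl, Finset.sum_range_succ]
    ring
  let z : List (Finset Λ × Finset D) → Finset D → MvPolynomial Λ A :=
    fun l S => if S = ∅ then res (lastT l) P else 0
  have hz1 : ∀ l, l.length = 0 + 1 → Gd F W l → ∃ y : Finset D → MvPolynomial Λ A,
      Hg (0 + 1) (lastQ l) y ∧ ∀ S, res (lastT l) (kd ν f y S) = z l S := by
    intro l hl hG
    obtain ⟨e, rfl⟩ := List.length_eq_one_iff.1 hl
    have he := hG.2 e (List.mem_singleton.2 rfl)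
    obtain ⟨y, hy1, _, hy3⟩ := (h3 Λ D A ν hν f e.1 e.2).2 P (hP e.1 he.1 e.2 he.2)
    refine ⟨y, hy1, ?_⟩
    intro S
    by_cases hS : S = ∅
    · subst hS
      simp only [z, if_true]
      exact hy3
    · have h0 : kd ν f y S = 0 := by
        unfold kd
        apply Finset.sum_eq_zero
        intro j hj
        have hjS : j ∉ S := (Finset.mem_sdiff.1 hj).2
        have : y (insert j S) = 0 := by
          by_contra hne
          have hc := (hy1 _ hne).1
          rw [Finset.card_insert_of_notMem hjS] at hc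
          have : S.card = 0 := by omega
          exact hS (Finset.card_eq_zero.1 this)
        rw [this, mul_zero, mul_zero]
      rw [h0, map_zero]
      simp only [z, if_neg hS]
  have hz2 : ∀ l, l.length = 0 + 2 → Gd F W l → ∀ S,
      res (lastT l) (dl (fun l' => z l' S) l) = 0 := by
    intro l hl hG S
    obtain ⟨e, e', rfl⟩ := List.length_eq_two.1 hl
    rw [hd2, hl2]
    by_cases hS : S = ∅
    · simp only [z, if_pos hS, hl1]
      have hsub : e'.1 ⊆ e.1 := by
        have := (List.pairwise_cons.1 hG.1).1 e' (List.mem_singleton.2 rfl)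
        exact this.1
      rw [map_sub, hres, hres, Finset.inter_self, Finset.inter_eq_left.2 hsub, sub_self]
    · simp only [z, if_neg hS, sub_self, map_zero]
  obtain ⟨w, hw1, hw2⟩ := h4 Λ D A ν hν F W f hC hR 0 z hz1 hz2
  have hv : ∀ j : D, ∃ v : List (Finset Λ × Finset D) → MvPolynomial Λ A,
      ∀ l, l.length = 0 + 1 → Gd F W l → res (lastT l) (dl v l) = w l {j} := by
    intro j
    obtain ⟨v, _, hv2⟩ := h2 Λ D A F W hC 0 (fun l => w l {j})
      (fun l hl hG => (hw1 l hl hG).2.1 {j}) (fun l hl hG => hw2 l hl hG {j})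
    exact ⟨v, hv2⟩
  choose v hv using hv
  refine ⟨fun j => v j [], ?_⟩
  intro T hT
  obtain ⟨_, _, κ, hκ, _⟩ := hC.con T hT
  have hG : Gd F W [((T, κ) : Finset Λ × Finset D)] := by
    refine ⟨List.pairwise_singleton _ _, ?_⟩
    intro e he
    rw [List.mem_singleton.1 he]
    exact ⟨hT, hκ⟩
  have e1 := (hw1 _ rfl hG).2.2 ∅
  have e2 : ∀ j, res (A := A) T (v j []) = w [(T, κ)] {j} := by
    intro j
    have := hv j _ rfl hG
    rwa [hl1, hd1] at this
  have e3 : ∀ j, res T (w [(T, κ)] {j}) = w [(T, κ)] {j} := by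
    intro j
    exact (hw1 _ rfl hG).2.1 {j}
  rw [hl1] at e1
  simp only [z, if_true, hl1] at e1
  rw [map_sub, ← e1, map_sum]
  unfold kd
  rw [map_sum, Finset.sdiff_empty, ← Finset.sum_sub_distrib]
  apply Finset.sum_eq_zero
  intro j _
  rw [Finset.filter_empty, Finset.card_empty, pow_zero, one_mul, insert_empty_eq, map_mul, map_mul,
    e2, e3, sub_self]

end Pool.Agent.GEN.H7
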